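import Pool.Agent.helper52.WP.SpecA
import Pool.Agent.helper36.V3.SpecW

set_option autoImplicit false

open Complex Metric Set Filter Topology MeasureTheory
open V3S (UF)
open WP
open Pool.Agent.helper16.Multibrot

noncomputable section

namespace WPA

theorem WDS_it (n : ℕ) (c : ℂ) (k : ℕ) : it (GR.fp n c) k = (MPS.fc n c)^[k] := by
  have h : (fun z : ℂ => (GR.fp n c).eval z) = MPS.fc n c := by
    funext z
    simp [GR.fp, MPS.fc]
  funext z
  unfold it
  rw [h]

theorem WDS_diff (n : ℕ) (c : ℂ) (k : ℕ) : Differentiable ℂ ((MPS.fc n c)^[k]) := by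
  have : Differentiable ℂ (MPS.fc n c) := by
    unfold MPS.fc
    fun_prop
  exact this.iterate k

theorem WDS_pow (n : ℕ) (c z : ℂ) (p : ℕ) (hp : (MPS.fc n c)^[p] z = z) (m : ℕ) :
    deriv ((MPS.fc n c)^[p * m]) z = deriv ((MPS.fc n c)^[p]) z ^ m := by
  induction m with
  | zero => simp
  | succ m ih =>
    have h1 : (MPS.fc n c)^[p * (m + 1)] = (MPS.fc n c)^[p * m] ∘ (MPS.fc n c)^[p] := by
      rw [Nat.mul_succ, Function.iterate_add]
    rw [h1, deriv_comp z (WDS_diff n c (p * m) _) (WDS_diff n c p z), hp, ih, pow_succ]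

theorem WDS (hFW : V3W.FW_stmt) : WDS_stmt := by
  intro n hn r hr
  obtain ⟨δ, hδ, hF⟩ := hFW n hn r hr
  refine ⟨min δ 1, lt_min hδ one_pos, min_le_right _ _, ?_⟩
  intro c hc k z hk hz
  rw [WDS_it] at hz ⊢
  have hper : Function.IsPeriodicPt (MPS.fc n c) k z := hz
  obtain ⟨m, hm⟩ := hper.minimalPeriod_dvd
  have hp : 0 < Function.minimalPeriod (MPS.fc n c) z := hper.minimalPeriod_pos hk
  have h1 : 1 + δ ≤ ‖deriv ((MPS.fc n c)^[Function.minimalPeriod (MPS.fc n c) z]) z‖ :=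
    hF c hc (Function.minimalPeriod (MPS.fc n c) z) z hp rfl
  have hm0 : m ≠ 0 := by
    rintro rfl
    omega
  have h2 := WDS_pow n c z (Function.minimalPeriod (MPS.fc n c) z) (Function.isPeriodicPt_minimalPeriod _ _) m
  rw [← hm] at h2
  rw [h2, norm_pow]
  have h3 : 1 + min δ 1 ≤ ‖deriv ((MPS.fc n c)^[Function.minimalPeriod (MPS.fc n c) z]) z‖ :=
    le_trans (by linarith [min_le_left δ 1]) h1
  have h4 : 1 ≤ ‖deriv ((MPS.fc n c)^[Function.minimalPeriod (MPS.fc n c) z]) z‖ := by linarith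
  calc 1 + min δ 1 ≤ ‖deriv ((MPS.fc n c)^[Function.minimalPeriod (MPS.fc n c) z]) z‖ ^ 1 := by rw [pow_one]; exact h3
    _ ≤ _ := pow_le_pow_right₀ h4 (by omega)

end WPA
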