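import Pool.Agent.helper52.WP.SpecB

set_option autoImplicit false

open Complex Metric Set Filter Topology MeasureTheory
open V3S (UF)
open WP
open PPS (pre TT fd)
open XPS (Df er)
open Pool.Agent.helper16.Multibrot

noncomputable section

namespace WPB

theorem ERS_TT_add (f : Polynomial ℂ) (q r : ℂ → ℂ) (z : ℂ) :
    TT f (fun x => q x + r x) z = TT f q z + TT f r z := by
  unfold TT
  rw [← Multiset.sum_map_add]
  congr 1
  apply Multiset.map_congr rfl
  intro y _
  rw [add_div]

theorem ERS_TT_mul (f : Polynomial ℂ) (a : ℂ) (q : ℂ → ℂ) (z : ℂ) :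
    TT f (fun x => a * q x) z = a * TT f q z := by
  unfold TT
  rw [← Multiset.sum_map_mul_left]
  congr 1
  apply Multiset.map_congr rfl
  intro y _
  rw [mul_div_assoc]

theorem ERS_TT_zero (f : Polynomial ℂ) (z : ℂ) : TT f (fun _ => 0) z = 0 := by
  unfold TT
  simp

theorem ERS_it_succ (n : ℕ) (c : ℂ) (j : ℕ) (a : ℂ) :
    it (GR.fp n c) (j + 1) a = (it (GR.fp n c) j a) ^ n + c := by
  unfold it
  rw [Function.iterate_succ_apply']
  simp [GR.fp]

theorem ERS_it_diff (n : ℕ) (c : ℂ) (j : ℕ) : Differentiable ℂ (it (GR.fp n c) j) := by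
  have h : Differentiable ℂ (fun z : ℂ => (GR.fp n c).eval z) := (GR.fp n c).differentiable
  exact h.iterate j

theorem ERS_deriv_succ (n : ℕ) (c : ℂ) (j : ℕ) (a : ℂ) :
    deriv (it (GR.fp n c) (j + 1)) a = (n : ℂ) * (it (GR.fp n c) j a) ^ (n - 1) * deriv (it (GR.fp n c) j) a := by
  have h1 : it (GR.fp n c) (j + 1) = fun x => (it (GR.fp n c) j x) ^ n + c := by
    funext x
    exact ERS_it_succ n c j x
  rw [h1]
  have h2 := ((ERS_it_diff n c j a).hasDerivAt.pow n).add_const c
  exact h2.deriv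

theorem ERS (hTSP : GR.TSP_stmt) : ERS_stmt := by
  intro n c k a hn
  induction k with
  | zero =>
    intro hk z hz hza
    have h0 : deriv (it (GR.fp n c) 0) a = 1 := by
      have : it (GR.fp n c) 0 = fun x => x := by
        funext x; rfl
      rw [this]
      exact deriv_id a
    have h1 : it (GR.fp n c) 0 a = a := rfl
    simp only [Finset.range_zero, Finset.sum_empty]
    rw [ERS_TT_zero, h0, h1]
    simp
  | succ k ih =>
    intro hk z hz hza
    rw [ERS_deriv_succ] at hk
    have hk1 : deriv (it (GR.fp n c) k) a ≠ 0 := right_ne_zero_of_mul hk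
    have hk2 : (n : ℂ) * (it (GR.fp n c) k a) ^ (n - 1) ≠ 0 := left_ne_zero_of_mul hk
    have hak : it (GR.fp n c) k a ≠ 0 := by
      intro h0
      apply hk2
      rw [h0, zero_pow (by omega), mul_zero]
    have ih' := ih hk1 z hz (fun j hj => hza j (by omega))
    have hza' : z ≠ (it (GR.fp n c) k a) ^ n + c := by
      rw [← ERS_it_succ]
      exact hza (k + 1) le_rfl
    have hT := hTSP n c (it (GR.fp n c) k a) z hn hak hz hza'
    have h1 : TT (GR.fp n c) (fun x => ∑ j ∈ Finset.range (k + 1), 1 / deriv (it (GR.fp n c) j) a / (x - it (GR.fp n c) j a)) z =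
        TT (GR.fp n c) (fun x => ∑ j ∈ Finset.range k, 1 / deriv (it (GR.fp n c) j) a / (x - it (GR.fp n c) j a)) z +
        1 / deriv (it (GR.fp n c) k) a * (1 / ((n : ℂ) * (it (GR.fp n c) k a) ^ (n - 1)) *
          (1 / (z - ((it (GR.fp n c) k a) ^ n + c)) - 1 / (z - c))) := by
      rw [← hT, ← ERS_TT_mul, ← ERS_TT_add]
      congr 1
      funext x
      rw [Finset.sum_range_succ, mul_one_div]
    rw [h1, Finset.sum_range_succ, Finset.sum_Icc_succ_top (by omega), ERS_deriv_succ, ERS_it_succ]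
    have h3 : 1 / deriv (it (GR.fp n c) k) a * (1 / ((n : ℂ) * (it (GR.fp n c) k a) ^ (n - 1)) *
          (1 / (z - ((it (GR.fp n c) k a) ^ n + c)) - 1 / (z - c))) =
        1 / ((n : ℂ) * (it (GR.fp n c) k a) ^ (n - 1) * deriv (it (GR.fp n c) k) a) / (z - ((it (GR.fp n c) k a) ^ n + c)) -
        1 / ((n : ℂ) * (it (GR.fp n c) k a) ^ (n - 1) * deriv (it (GR.fp n c) k) a) / (z - c) := by
      field_simp
    rw [h3, add_div]
    linear_combination ih'

end WPB
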