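import Pool.Agent.helper52.WP.SpecB

set_option autoImplicit false

open Complex Metric Set Filter Topology MeasureTheory
open V3S (UF)
open WP
open PPS (pre TT fd)
open XPS (Df er)
open Pool.Agent.helper16.Multibrot

noncomputable section

namespace WPB

theorem LNA : LNA_stmt := by
  intro p q
  let F : (Fin 3 → ℂ) →ₗ[ℂ] (Fin 2 → ℂ) :=
    { toFun := fun γ => ![∑ i, γ i * p i, ∑ i, γ i * q i]
      map_add' := by
        intro x y
        ext i
        fin_cases i
        · simp [add_mul, Finset.sum_add_distrib]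
        · simp [add_mul, Finset.sum_add_distrib]
      map_smul' := by
        intro c x
        ext i
        fin_cases i
        · simp [mul_assoc, Finset.mul_sum]
        · simp [mul_assoc, Finset.mul_sum] }
  have hker : LinearMap.ker F ≠ ⊥ := LinearMap.ker_ne_bot_of_finrank_lt (by simp)
  obtain ⟨x, hx, hx0⟩ := Submodule.exists_mem_ne_zero_of_ne_bot hker
  rw [LinearMap.mem_ker] at hx
  have h1 : ∑ i, x i * p i = 0 := by
    have := congrFun hx 0
    simpa [F] using this
  have h2 : ∑ i, x i * q i = 0 := by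
    have := congrFun hx 1
    simpa [F] using this
  obtain ⟨i₀, hi₀⟩ := Finite.exists_max (fun i : Fin 3 => ‖x i‖)
  have hpos : 0 < ‖x i₀‖ := by
    by_contra hcon
    push Not at hcon
    apply hx0
    funext i
    have := hi₀ i
    have h3 : ‖x i‖ = 0 := le_antisymm (this.trans hcon) (norm_nonneg _)
    exact norm_eq_zero.1 h3
  refine ⟨fun i => ((‖x i₀‖⁻¹ : ℝ) : ℂ) * x i, ?_, ?_, ?_, i₀, ?_⟩
  · simp only [mul_assoc]
    rw [← Finset.mul_sum, h1, mul_zero]
  · simp only [mul_assoc]
    rw [← Finset.mul_sum, h2, mul_zero]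
  · intro i
    rw [norm_mul, Complex.norm_real, Real.norm_of_nonneg (by positivity), inv_mul_le_iff₀ hpos, mul_one]
    exact hi₀ i
  · rw [norm_mul, Complex.norm_real, Real.norm_of_nonneg (by positivity), inv_mul_cancel₀ hpos.ne']

end WPB
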