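import Pool.Agent.helper52.WP.SpecN

set_option autoImplicit false

open Complex Metric Set Filter Topology MeasureTheory
open V3S (UF)
open WP

noncomputable section

namespace WPN

theorem NAC (hNME : NME_stmt) (hNNZ : NNZ_stmt) (hNLI : NLI_stmt) (hPIN : WPL.PIN_stmt) : NAC_stmt := by
  intro n C D hC hD x
  obtain ⟨N, t, K, ht, hK⟩ := hNME n C D hC hD x
  obtain ⟨hdiff, -⟩ := hNLI n C D hC hD
  obtain ⟨-, hcl, -, -, hconn, -⟩ := hPIN n C D hC hD
  obtain ⟨x₁, hx₁, hx₁'⟩ := hNNZ n C D hC hD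
  have hopen : IsOpen (Pin D)ᶜ := hcl.isOpen_compl
  set h : ℂ → ℂ := fun y => (y - x) ^ N * Bin D y with hh
  have hd : DifferentiableOn ℂ h (ball x t \ {x}) := by
    intro y hy
    have hy2 : y ∈ (Pin D)ᶜ := (hK y hy.1 hy.2).1
    have h1 : DifferentiableAt ℂ (Bin D) y := (hdiff y hy2).differentiableAt (hopen.mem_nhds hy2)
    have h2 : DifferentiableAt ℂ (fun y : ℂ => (y - x) ^ N) y := by fun_prop
    exact (h2.mul h1).differentiableWithinAt
  have hb : BddAbove (norm ∘ h '' (ball x t \ {x})) := by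
    refine ⟨K, ?_⟩
    rintro _ ⟨y, hy, rfl⟩
    have := (hK y hy.1 hy.2).2
    show ‖(y - x) ^ N * Bin D y‖ ≤ K
    rw [norm_mul, norm_pow]
    exact this
  have hH := Complex.differentiableOn_update_limUnder_of_bddAbove (ball_mem_nhds x ht) hd hb
  set H : ℂ → ℂ := Function.update h x (limUnder (𝓝[≠] x) h) with hHdef
  have hHa : AnalyticAt ℂ H x := hH.analyticAt (ball_mem_nhds x ht)
  have hball : ∀ᶠ y in 𝓝[≠] x, y ∈ ball x t ∧ y ≠ x := by
    filter_upwards [nhdsWithin_le_nhds (ball_mem_nhds x ht), self_mem_nhdsWithin] with y h1 h2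
    exact ⟨h1, h2⟩
  rcases hHa.eventually_eq_zero_or_eventually_ne_zero with h0 | h0
  · exfalso
    have h1 : ∀ᶠ y in 𝓝[≠] x, y ∈ (Pin D)ᶜ ∧ Bin D y = 0 := by
      filter_upwards [hball, nhdsWithin_le_nhds h0] with y hy hy0
      refine ⟨(hK y hy.1 hy.2).1, ?_⟩
      have h2 : H y = (y - x) ^ N * Bin D y := by
        rw [hHdef, Function.update_of_ne hy.2]
      rw [h2] at hy0
      rcases mul_eq_zero.1 hy0 with h3 | h3
      · exact absurd h3 (pow_ne_zero _ (sub_ne_zero.2 hy.2))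
      · exact h3
    have h2 : ∀ᶠ y in 𝓝[≠] x, ∀ᶠ z in 𝓝 y, z ∈ (Pin D)ᶜ ∧ Bin D z = 0 :=
      (eventually_nhdsWithin_iff.1 h1).eventually_nhds.filter_mono nhdsWithin_le_nhds |>.mp (by
        filter_upwards [self_mem_nhdsWithin] with y hy hz
        filter_upwards [hz, isOpen_ne.mem_nhds hy] with z h3 h4
        exact h3 h4)
    obtain ⟨y, hy1, hy2⟩ := (h1.and h2).exists
    have h3 : EqOn (Bin D) 0 (Pin D)ᶜ :=
      (hdiff.analyticOnNhd hopen).eqOn_zero_of_preconnected_of_eventuallyEq_zero hconn hy1.1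
        (hy2.mono (fun z hz => hz.2))
    exact hx₁' (h3 hx₁)
  · filter_upwards [hball, h0] with y hy hy0
    refine ⟨(hK y hy.1 hy.2).1, ?_⟩
    intro h1
    apply hy0
    rw [hHdef, Function.update_of_ne hy.2, hh]
    simp [h1]

end WPN
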