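import Pool.Agent.helper52.WP.SpecT

set_option autoImplicit false

open Complex Metric Set Filter Topology MeasureTheory
open V3S (UF)
open WP
open Pool.Agent.helper16.Multibrot

noncomputable section

namespace WPT

theorem STS_fd1 (f : Polynomial ℂ) (z : ℂ) : deriv (it f 1) z = PPS.fd f z := by
  have h : it f 1 = fun z : ℂ => f.eval z := by
    funext z; rfl
  rw [h]
  exact (f.hasDerivAt z).deriv

theorem STS (hCB1 : WPC.CB1_stmt) (hCB2 : WPC.CB2_stmt) : STS_stmt := by
  intro n C A D hG x₀ ρ r χ Ψ hS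
  obtain ⟨hs, -, hxz, hzx, hF0, hFadd, hFd, hFder, hFdit, hzF, -, -, -, -, -, hlast⟩ := hCB1 D hG.rho
  obtain ⟨c₀, -, K, -, hc2⟩ := hCB2 C hG.C1
  obtain ⟨-, hne, -, -, -, -, -, -, -⟩ := hc2 n A D hG
  have hC1 := hG.C1
  have hA1 := hG.A1
  have hC0 : 0 < C := by linarith
  have hkk := hG.hk
  have hball : ball (0 : ℂ) (1 / (2 * C)) ⊆ ball (0 : ℂ) (1 / C) := by
    apply ball_subset_ball
    apply one_div_le_one_div_of_le hC0
    linarith
  have hball1 : ball (0 : ℂ) (1 / (2 * C)) ⊆ ball (0 : ℂ) 1 := by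
    apply ball_subset_ball
    rw [div_le_one (by positivity)]
    linarith
  set Ω : Set ℂ := ball 0 (2 * r) with hΩ
  have hΩo : IsOpen Ω := isOpen_ball
  set X : ℂ → ℂ := fun w => D.xx (χ w) with hX
  have hXm : ∀ w ∈ Ω, X w ∈ ball x₀ ρ := hS.mp
  have hdxx : Differentiable ℂ D.xx := by
    show Differentiable ℂ fun z => (z - D.w) / D.sg
    fun_prop
  have hdzz : Differentiable ℂ D.zz := by
    show Differentiable ℂ fun x => D.w + D.sg * x
    fun_prop
  have hXd : DifferentiableOn ℂ X Ω := hdxx.comp_differentiableOn hS.nat.diff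
  have hPd : DifferentiableOn ℂ (fun w => Ψ (X w)) Ω := hS.psd.comp hXd hXm
  have htw : ∀ q w, tw D Ψ χ q w = D.zz (D.F (D.k - q) (Ψ (X w))) := fun q w => rfl
  have hΨ : ∀ w ∈ Ω, Ψ (X w) ∈ ball (0 : ℂ) (1 / (2 * C)) := fun w hw => (hS.psr _ (hXm w hw)).1
  have hXC : ∀ w ∈ Ω, X w ∈ ball (0 : ℂ) (1 / (2 * C)) := fun w hw => (hS.psr _ (hXm w hw)).2
  -- level zero
  have h0 : EqOn (tw D Ψ χ 0) χ Ω := by
    intro w hw
    rw [htw, Nat.sub_zero, hS.psi _ (hXm w hw)]
    exact hzx _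
  -- iterates of the tower
  have hit : ∀ q ≤ D.k, ∀ w, (fun z => D.f.eval z)^[q] (tw D Ψ χ q w) = tw D Ψ χ 0 w := by
    intro q hq w
    rw [htw, htw, hzF, hzF]
    show (fun z => D.f.eval z)^[q] ((fun z => D.f.eval z)^[D.k - q] (D.zz (Ψ (X w)))) =
      (fun z => D.f.eval z)^[D.k - 0] (D.zz (Ψ (X w)))
    rw [← Function.iterate_add_apply, Nat.sub_zero]
    rw [show q + (D.k - q) = D.k by omega]
  have hrel : ∀ q < D.k, ∀ w, D.f.eval (tw D Ψ χ (q + 1) w) = tw D Ψ χ q w := by
    intro q hq w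
    rw [htw, htw, hzF, hzF]
    show D.f.eval ((fun z => D.f.eval z)^[D.k - (q + 1)] (D.zz (Ψ (X w)))) =
      (fun z => D.f.eval z)^[D.k - q] (D.zz (Ψ (X w)))
    rw [show D.k - q = D.k - (q + 1) + 1 by omega, Function.iterate_succ_apply']
  -- injectivity of the chart
  have hχi : InjOn χ Ω := by
    have ha : deriv χ 0 ≠ 0 := by
      intro h
      have := hS.nat.eq 0 (mem_ball_self (by have := hS.r0; linarith))
      rw [h] at this
      norm_num at this
    have hd : ∀ w ∈ Ω, HasDerivWithinAt (fun w => χ w - deriv χ 0 * w) (deriv χ w - deriv χ 0) Ω w := by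
      intro w hw
      have h1 : HasDerivAt χ (deriv χ w) w :=
        ((hS.nat.diff w hw).differentiableAt (hΩo.mem_nhds hw)).hasDerivAt
      have h2 : HasDerivAt (fun w : ℂ => deriv χ 0 * w) (deriv χ 0) w := by
        simpa using (hasDerivAt_id w).const_mul (deriv χ 0)
      exact (h1.sub h2).hasDerivWithinAt
    intro w hw w' hw' he
    have h3 := (convex_ball (0 : ℂ) (2 * r)).norm_image_sub_le_of_norm_hasDerivWithin_le
      hd (fun z hz => hS.aff z hz) hw hw'
    have he' : χ w = χ w' := he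
    have h4 : χ w' - deriv χ 0 * w' - (χ w - deriv χ 0 * w) = -(deriv χ 0 * (w' - w)) := by
      rw [he']; ring
    have h5 : ‖χ w' - deriv χ 0 * w' - (χ w - deriv χ 0 * w)‖ ≤ ‖deriv χ 0‖ / 10 * ‖w' - w‖ := h3
    rw [h4, norm_neg, norm_mul] at h5
    have h6 : 0 < ‖deriv χ 0‖ := norm_pos_iff.mpr ha
    have h7 : ‖w' - w‖ = 0 := by
      have := norm_nonneg (w' - w)
      nlinarith
    have h8 : w' - w = 0 := norm_eq_zero.mp h7
    exact (sub_eq_zero.mp h8).symm
  -- range
  have hrad : ∀ q ≤ D.k, ∀ w ∈ Ω, ‖tw D Ψ χ q w‖ < D.rad := by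
    intro q
    induction q with
    | zero =>
      intro _ w hw
      rw [h0 hw]
      have h1 := hXC w hw
      rw [mem_ball_zero_iff] at h1
      have h2 : ‖X w‖ < A := by
        have : 1 / (2 * C) ≤ 1 := by
          rw [div_le_one (by positivity)]
          linarith
        linarith
      have h3 := hG.radb _ h2
      have h4 : D.zz (X w) = χ w := hzx _
      rwa [h4] at h3
    | succ q ih =>
      intro hq w hw
      apply hG.eng.inv
      rw [hrel q (by omega) w]
      exact ih (by omega) w hw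
  refine ⟨⟨⟨?_, ?_, ?_⟩, ?_, ?_, ?_⟩, h0, ?_, ?_, ?_⟩
  · exact hS.nat.diff.congr h0
  · intro w hw
    rw [h0 hw]
    exact hS.nat.av w hw
  · intro w hw
    have he : tw D Ψ χ 0 =ᶠ[𝓝 w] χ := h0.eventuallyEq_of_mem (hΩo.mem_nhds hw)
    rw [he.deriv_eq, h0 hw]
    exact hS.nat.eq w hw
  · intro q _
    exact (hdzz.comp (hFd (D.k - q))).comp_differentiableOn hPd
  · intro q hq w hw
    refine ⟨hrel q hq w, ?_⟩
    have h1 : deriv (D.F (1 + (D.k - (q + 1)))) (Ψ (X w)) ≠ 0 :=
      hne _ (by omega) _ (hball1 (hΨ w hw))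
    rw [hFder, hFdit, STS_fd1] at h1
    exact left_ne_zero_of_mul h1
  · intro q hq w hw
    have hχP : D.xx (χ w) ∉ D.Pt := hS.far w hw
    refine ⟨?_, ?_⟩
    · intro hP
      apply hχP
      have h1 := hlast _ hP q (by omega)
      rwa [hit q hq w, h0 hw] at h1
    · intro y hy hP
      apply hχP
      have h1 := hlast _ hP (q + 1) (by omega)
      rw [Function.iterate_succ_apply] at h1
      rwa [hy, hit q hq w, h0 hw] at h1
  · intro q hq w hw w' hw' he
    apply hχi hw hw'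
    rw [← h0 hw, ← h0 hw', ← hit q hq, ← hit q hq, he]
  · intro q hq w hw
    rw [mem_ball_zero_iff]
    exact hrad q hq.le w hw
  · intro z S hS'
    have key : ∀ q q' w w', q < q' → q' < D.k → w ∈ Ω → w' ∈ Ω → tw D Ψ χ q w = tw D Ψ χ q' w' → False := by
      intro q q' w w' hqq hq' hw hw' he
      have e1 : D.F (D.k - q) (Ψ (X w)) = D.F (D.k - q') (Ψ (X w')) := by
        have := congrArg D.xx he
        rwa [htw, htw, hxz, hxz] at this
      rcases Nat.eq_zero_or_pos q with h | h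
      · rw [h, Nat.sub_zero, hS.psi _ (hXm w hw)] at e1
        have hdj := hG.dj 0 (by omega) (D.k - q') (by omega) (by omega)
        rw [Set.disjoint_left] at hdj
        apply hdj (a := X w)
        · exact ⟨X w, hball (hXC w hw), hF0 _⟩
        · rw [e1]
          exact ⟨Ψ (X w'), hball (hΨ w' hw'), rfl⟩
      · have hdj := hG.dj (D.k - q) (by omega) (D.k - q') (by omega) (by omega)
        rw [Set.disjoint_left] at hdj
        apply hdj (a := D.F (D.k - q) (Ψ (X w)))
        · exact ⟨Ψ (X w), hball (hΨ w hw), rfl⟩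
        · rw [e1]
          exact ⟨Ψ (X w'), hball (hΨ w' hw'), rfl⟩
    rw [Finset.card_le_one]
    intro q hq q' hq'
    obtain ⟨hk1, w, hw, e1⟩ := hS' q hq
    obtain ⟨hk2, w', hw', e2⟩ := hS' q' hq'
    rcases lt_trichotomy q q' with h | h | h
    · exact (key q q' w w' h hk2 hw hw' (e1.trans e2.symm)).elim
    · exact h
    · exact (key q' q w' w h hk1 hw' hw (e2.trans e1.symm)).elim

end WPT
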